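import Mathlib

set_option autoImplicit false

open Set Filter Topology

namespace Pool.Agent.H36.Old.NoBlidOld

/-- The real Banach space `C[0,1]` of continuous real functions on `[0,1]`, with the sup norm. -/
abbrev X : Type := C(Set.Icc (0:ℝ) 1, ℝ)

/-- `H` is a `C^q` blid map at `S` for the neighborhood `U` of `S`: it is of class `C^q` in the
Frechet sense on the whole space, its range lies in `U`, and it is the identity on a smaller
neighborhood `V` of `S`. -/
def IsBlidMap (q : ℕ∞) (S U : Set X) (H : X → X) : Prop :=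
  ContDiff ℝ q H ∧ (∀ x, H x ∈ U) ∧ ∃ V : Set X, V ∈ 𝓝ˢ S ∧ V ⊆ U ∧ ∀ x ∈ V, H x = x

/-- `S` admits `C^q` blid maps: for every neighborhood `U` of `S` there is one. -/
def AdmitsBlidMaps (q : ℕ∞) (S : Set X) : Prop :=
  ∀ U ∈ 𝓝ˢ S, ∃ H : X → X, IsBlidMap q S U H

/-! ### Bumps -/

/-- tent function of height one around `a` of radius `δ` -/
noncomputable def tent (a : Set.Icc (0:ℝ) 1) (δ : ℝ) : X where
  toFun t := max 0 (1 - dist t a / δ)
  continuous_toFun := by fun_prop

lemma tent_apply (a : Set.Icc (0:ℝ) 1) (δ : ℝ) (t : Set.Icc (0:ℝ) 1) :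
    tent a δ t = max 0 (1 - dist t a / δ) := rfl

lemma tent_self (a : Set.Icc (0:ℝ) 1) (δ : ℝ) : tent a δ a = 1 := by
  rw [tent_apply, dist_self]; simp

lemma tent_nonneg (a : Set.Icc (0:ℝ) 1) (δ : ℝ) (t : Set.Icc (0:ℝ) 1) : 0 ≤ tent a δ t :=
  le_max_left _ _

lemma tent_le_one (a : Set.Icc (0:ℝ) 1) {δ : ℝ} (hδ : 0 < δ) (t : Set.Icc (0:ℝ) 1) :
    tent a δ t ≤ 1 := by
  rw [tent_apply]
  apply max_le zero_le_one
  have : 0 ≤ dist t a / δ := by positivity
  linarith

lemma tent_eq_zero (a : Set.Icc (0:ℝ) 1) {δ : ℝ} (hδ : 0 < δ) (t : Set.Icc (0:ℝ) 1)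
    (h : δ ≤ dist t a) : tent a δ t = 0 := by
  rw [tent_apply]
  apply max_eq_left
  have : 1 ≤ dist t a / δ := by rwa [le_div_iff₀ hδ, one_mul]
  linarith

lemma norm_tent (a : Set.Icc (0:ℝ) 1) {δ : ℝ} (hδ : 0 < δ) : ‖tent a δ‖ ≤ 1 := by
  rw [ContinuousMap.norm_le _ zero_le_one]
  intro t
  rw [Real.norm_of_nonneg (tent_nonneg a δ t)]
  exact tent_le_one a hδ t

/-- Among many disjoint tents one is nearly invisible to a given functional. -/
lemma exists_tent (μ : X →L[ℝ] ℝ) (W : Set (Set.Icc (0:ℝ) 1)) (hW : W.Infinite)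
    (t₀ : Set.Icc (0:ℝ) 1) {η : ℝ} (hη : 0 < η) :
    ∃ a ∈ W, ∃ h : X, h t₀ = 0 ∧ ‖h‖ ≤ 1 ∧ h a = 1 ∧ |μ h| ≤ η := by
  classical
  -- choose n
  obtain ⟨n, hn⟩ := exists_nat_gt (‖μ‖ / η)
  have hn0 : 0 < (n : ℝ) := lt_of_le_of_lt (by positivity) hn
  have hW' : (W \ {t₀}).Infinite := hW.sdiff (Set.finite_singleton t₀)
  obtain ⟨F, hFW, hFn⟩ := hW'.exists_subset_card_eq n
  have hFne : F.Nonempty := by
    rw [← Finset.card_pos, hFn]; exact_mod_cast hn0
  -- choose δ
  obtain ⟨δ, hδ0, hδ1, hδ2⟩ : ∃ δ : ℝ, 0 < δ ∧ (∀ a ∈ F, δ ≤ dist t₀ a) ∧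
      (∀ a ∈ F, ∀ b ∈ F, a ≠ b → 2 * δ ≤ dist a b) := by
    -- finite set of positive reals has a positive lower bound
    have h1 : ∀ S : Finset ℝ, (∀ s ∈ S, 0 < s) → ∃ δ : ℝ, 0 < δ ∧ ∀ s ∈ S, δ ≤ s := by
      intro S hS
      rcases S.eq_empty_or_nonempty with h | h
      · exact ⟨1, one_pos, by simp [h]⟩
      · exact ⟨S.min' h, hS _ (S.min'_mem h), fun s hs => S.min'_le s hs⟩
    obtain ⟨δ₁, hδ₁, hδ₁'⟩ := h1 (F.image (fun a => dist t₀ a)) (by
      intro s hs
      obtain ⟨a, ha, rfl⟩ := Finset.mem_image.mp hs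
      have := hFW ha
      exact dist_pos.mpr (Ne.symm this.2))
    obtain ⟨δ₂, hδ₂, hδ₂'⟩ := h1 ((F.offDiag).image (fun a => dist a.1 a.2)) (by
      intro s hs
      obtain ⟨a, ha, rfl⟩ := Finset.mem_image.mp hs
      rw [Finset.mem_offDiag] at ha
      exact dist_pos.mpr ha.2.2)
    refine ⟨min δ₁ (δ₂ / 2), by positivity, ?_, ?_⟩
    · intro a ha
      exact (min_le_left _ _).trans (hδ₁' _ (Finset.mem_image_of_mem _ ha))
    · intro a ha b hb hab
      have h2 := hδ₂' (dist a b) (Finset.mem_image.mpr ⟨(a, b), by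
        rw [Finset.mem_offDiag]; exact ⟨ha, hb, hab⟩, rfl⟩)
      have h3 : min δ₁ (δ₂ / 2) ≤ δ₂ / 2 := min_le_right _ _
      linarith
  -- the signed sum has norm at most one
  set s : Set.Icc (0:ℝ) 1 → ℝ := fun a => SignType.sign (μ (tent a δ)) with hs
  have hs1 : ∀ a, |s a| ≤ 1 := by
    intro a
    simp only [hs]
    rcases lt_trichotomy (μ (tent a δ)) 0 with h | h | h
    · rw [sign_neg h]; simp
    · rw [h]; simp
    · rw [sign_pos h]; simp
  have hnorm : ‖∑ a ∈ F, s a • tent a δ‖ ≤ 1 := by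
    rw [ContinuousMap.norm_le _ zero_le_one]
    intro t
    rw [ContinuousMap.sum_apply]
    by_cases hex : ∃ a ∈ F, dist t a < δ
    · obtain ⟨a, haF, hat⟩ := hex
      rw [Finset.sum_eq_single_of_mem a haF]
      · rw [ContinuousMap.smul_apply, smul_eq_mul, norm_mul]
        have h1 := hs1 a
        have h2 : ‖tent a δ t‖ ≤ 1 := by
          rw [Real.norm_of_nonneg (tent_nonneg a δ t)]
          exact tent_le_one a hδ0 t
        rw [← Real.norm_eq_abs] at h1
        calc _ ≤ (1:ℝ) * 1 := by gcongr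
          _ = 1 := by norm_num
      · intro b hb hba
        rw [ContinuousMap.smul_apply, tent_eq_zero b hδ0 t, smul_zero]
        have h1 := hδ2 a haF b hb (Ne.symm hba)
        have h2 := dist_triangle a t b
        rw [dist_comm a t] at h2
        linarith
    · push Not at hex
      rw [Finset.sum_eq_zero]
      · simp
      · intro a ha
        rw [ContinuousMap.smul_apply, tent_eq_zero a hδ0 t (hex a ha), smul_zero]
  have hsum : ∑ a ∈ F, |μ (tent a δ)| ≤ ‖μ‖ := by
    have h1 : μ (∑ a ∈ F, s a • tent a δ) = ∑ a ∈ F, |μ (tent a δ)| := by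
      rw [map_sum]
      apply Finset.sum_congr rfl
      intro a _
      rw [map_smul, smul_eq_mul]
      simp only [hs]
      rw [sign_mul_self]
    rw [← h1]
    calc μ (∑ a ∈ F, s a • tent a δ) ≤ ‖μ (∑ a ∈ F, s a • tent a δ)‖ := Real.le_norm_self _
      _ ≤ ‖μ‖ * ‖∑ a ∈ F, s a • tent a δ‖ := μ.le_opNorm _
      _ ≤ ‖μ‖ * 1 := by gcongr
      _ = ‖μ‖ := mul_one _
  obtain ⟨a, haF, ha⟩ : ∃ a ∈ F, |μ (tent a δ)| ≤ η := by
    by_contra hcon
    push Not at hcon
    have h1 : ∑ a ∈ F, η < ∑ a ∈ F, |μ (tent a δ)| := Finset.sum_lt_sum_of_nonempty hFne hcon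
    rw [Finset.sum_const, hFn, nsmul_eq_mul] at h1
    rw [div_lt_iff₀ hη] at hn
    linarith
  exact ⟨a, (hFW haF).1, tent a δ, tent_eq_zero a hδ0 t₀ (hδ1 a haF), norm_tent a hδ0,
    tent_self a δ, ha⟩

/-- Spikes: small perturbations vanishing at `t₀`, almost invisible to `μ`, increasing the norm. -/
lemma exists_spike (μ : X →L[ℝ] ℝ) (m : X) (t₀ : Set.Icc (0:ℝ) 1) {η l : ℝ} (hη : 0 < η)
    (hl : 0 < l) :
    ∃ h : X, h t₀ = 0 ∧ ‖h‖ ≤ l ∧ |μ h| ≤ η * l ∧ ‖m‖ + l / 2 ≤ ‖m + h‖ := by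
  -- a point where the norm is attained
  obtain ⟨t, -, ht⟩ := isCompact_univ.exists_isMaxOn (s := (Set.univ : Set (Set.Icc (0:ℝ) 1)))
    ⟨t₀, mem_univ _⟩ (f := fun t => |m t|) (by fun_prop)
  have hmt : ‖m‖ ≤ |m t| := by
    rw [ContinuousMap.norm_le _ (abs_nonneg _)]
    intro s
    exact ht (mem_univ s)
  -- sign
  obtain ⟨σ, hσ1, hσ2⟩ : ∃ σ : ℝ, |σ| = 1 ∧ σ * m t = |m t| := by
    rcases le_total 0 (m t) with h | h
    · exact ⟨1, by simp, by rw [abs_of_nonneg h, one_mul]⟩
    · exact ⟨-1, by simp, by rw [abs_of_nonpos h]; ring⟩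
  have hσσ : σ * σ = 1 := by
    rw [← abs_mul_abs_self, hσ1]; norm_num
  set W : Set (Set.Icc (0:ℝ) 1) := {s | ‖m‖ - l / 2 < σ * m s} with hWdef
  have hWnhds : W ∈ 𝓝 t := by
    apply IsOpen.mem_nhds
    · exact isOpen_lt (by fun_prop) (by fun_prop)
    · simp only [hWdef, mem_ofPred_eq]
      linarith
  have hWinf : W.Infinite := infinite_of_mem_nhds t hWnhds
  obtain ⟨a, haW, h, hh0, hh1, hha, hμ⟩ := exists_tent μ W hWinf t₀ hη
  refine ⟨(σ * l) • h, ?_, ?_, ?_, ?_⟩
  · rw [ContinuousMap.smul_apply, hh0, smul_zero]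
  · rw [norm_smul, norm_mul, Real.norm_eq_abs, hσ1, Real.norm_of_nonneg hl.le, one_mul]
    nlinarith
  · rw [map_smul, smul_eq_mul, abs_mul, abs_mul, hσ1, abs_of_pos hl, one_mul]
    nlinarith
  · have h1 : σ * (m + (σ * l) • h) a = σ * m a + l := by
      rw [ContinuousMap.add_apply, ContinuousMap.smul_apply, hha, smul_eq_mul]
      linear_combination l * hσσ
    have h2 : σ * (m + (σ * l) • h) a ≤ ‖m + (σ * l) • h‖ := by
      calc σ * (m + (σ * l) • h) a ≤ |σ * (m + (σ * l) • h) a| := le_abs_self _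
        _ = ‖(m + (σ * l) • h) a‖ := by rw [abs_mul, hσ1, one_mul, Real.norm_eq_abs]
        _ ≤ _ := ContinuousMap.norm_coe_le_norm _ _
    have h3 : ‖m‖ - l / 2 < σ * m a := haW
    linarith

/-- A continuous, everywhere differentiable function on `C[0,1]` stays nearly constant along some
way from a point of the open ball to the sphere that does not move the value at `t₀`. -/
lemma reach (f : X → ℝ) (hf : Differentiable ℝ f) (t₀ : Set.Icc (0:ℝ) 1) {r ε : ℝ} (hε : 0 < ε)
    (x₀ : X) (hx₀ : ‖x₀‖ ≤ r) :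
    ∃ x : X, ‖x‖ = r ∧ x t₀ = x₀ t₀ ∧ |f x - f x₀| ≤ ε * (‖x‖ - ‖x₀‖) := by
  classical
  -- the relation
  set R : X → X → Prop := fun x y => ‖y - x‖ ≤ 2 * (‖y‖ - ‖x‖) ∧ |f y - f x| ≤ ε * (‖y‖ - ‖x‖) with hR
  have hRtrans : ∀ x y z, R x y → R y z → R x z := by
    intro x y z hxy hyz
    simp only [hR] at *
    constructor
    · have : z - x = (z - y) + (y - x) := by abel
      rw [this]
      refine (norm_add_le _ _).trans ?_
      linarith [hxy.1, hyz.1]
    · have : f z - f x = (f z - f y) + (f y - f x) := by ring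
      rw [this]
      refine (abs_add_le _ _).trans ?_
      linarith [hxy.2, hyz.2]
  have hRrefl : ∀ x, R x x := by intro x; simp [hR]
  -- the set
  set Y : Set X := {x | ‖x‖ ≤ r ∧ x t₀ = x₀ t₀} with hY
  have hYclosed : IsClosed Y := by
    apply IsClosed.and
    · exact isClosed_le (by fun_prop) (by fun_prop)
    · exact isClosed_eq (by fun_prop) (by fun_prop)
  have hfc : Continuous f := hf.continuous
  have hxY : x₀ ∈ Y := ⟨hx₀, rfl⟩
  have : Nonempty {x // x ∈ Y ∧ R x₀ x} := ⟨⟨x₀, hxY, hRrefl x₀⟩⟩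
  obtain ⟨m, hm⟩ := exists_maximal_of_nonempty_chains_bounded
    (α := {x // x ∈ Y ∧ R x₀ x}) (r := fun x y => R x.1 y.1) (by
      intro c hc hcne
      -- the supremum of the norms
      have hbdd : BddAbove ((fun x : {x // x ∈ Y ∧ R x₀ x} => ‖x.1‖) '' c) := by
        refine ⟨r, ?_⟩
        rintro _ ⟨x, -, rfl⟩
        exact x.2.1.1
      set S := sSup ((fun x : {x // x ∈ Y ∧ R x₀ x} => ‖x.1‖) '' c) with hS
      have hSne : ((fun x : {x // x ∈ Y ∧ R x₀ x} => ‖x.1‖) '' c).Nonempty := hcne.image _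
      have hle : ∀ x ∈ c, ‖x.1‖ ≤ S := fun x hx => le_csSup hbdd ⟨x, hx, rfl⟩
      -- comparability gives distance bounds
      have hcomp : ∀ x ∈ c, ∀ y ∈ c, ‖y.1 - x.1‖ ≤ 2 * |‖y.1‖ - ‖x.1‖| := by
        intro x hx y hy
        by_cases hxy : x = y
        · subst hxy; simp
        · rcases hc hx hy hxy with h | h
          · exact h.1.trans (by gcongr; exact le_abs_self _)
          · rw [norm_sub_rev, abs_sub_comm]
            exact h.1.trans (by gcongr; exact le_abs_self _)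
      have hseq : ∀ n : ℕ, ∃ x ∈ c, S - 1 / ((n:ℝ) + 1) < ‖x.1‖ := by
        intro n
        have h1 : S - 1 / ((n:ℝ) + 1) < S := by
          have : 0 < 1 / ((n:ℝ) + 1) := by positivity
          linarith
        obtain ⟨_, ⟨x, hx, rfl⟩, hx2⟩ := exists_lt_of_lt_csSup hSne h1
        exact ⟨x, hx, hx2⟩
      choose y hyc hyS using hseq
      have hnorm : Tendsto (fun n => ‖(y n).1‖) atTop (𝓝 S) := by
        have h1 : Tendsto (fun n : ℕ => S - 1 / ((n:ℝ) + 1)) atTop (𝓝 (S - 0)) :=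
          tendsto_const_nhds.sub tendsto_one_div_add_atTop_nhds_zero_nat
        rw [sub_zero] at h1
        exact tendsto_of_tendsto_of_tendsto_of_le_of_le h1 tendsto_const_nhds
          (fun n => (hyS n).le) (fun n => hle _ (hyc n))
      have hcauchy : CauchySeq (fun n => (y n).1) := by
        rw [Metric.cauchySeq_iff]
        intro δ hδ
        have h1 := (Metric.cauchySeq_iff.mp hnorm.cauchySeq) (δ / 2) (by positivity)
        obtain ⟨M, hM⟩ := h1
        refine ⟨M, fun a ha b hb => ?_⟩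
        have h2 := hM a ha b hb
        rw [Real.dist_eq] at h2
        rw [dist_eq_norm]
        have h3 := hcomp (y b) (hyc b) (y a) (hyc a)
        linarith
      obtain ⟨z, hz⟩ := cauchySeq_tendsto_of_complete hcauchy
      have hznorm : ‖z‖ = S := tendsto_nhds_unique hz.norm hnorm
      have hzY : z ∈ Y := hYclosed.mem_of_tendsto hz (Eventually.of_forall fun n => (y n).2.1)
      have hub : ∀ x ∈ c, R x.1 z := by
        intro x hx
        rcases (hle x hx).lt_or_eq with hlt | heq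
        · -- eventually above x
          have hev : ∀ᶠ n in atTop, R x.1 (y n).1 := by
            filter_upwards [hnorm.eventually (lt_mem_nhds hlt)] with n hn
            by_cases hxy : x = y n
            · rw [← hxy]; exact hRrefl _
            · rcases hc hx (hyc n) hxy with h | h
              · exact h
              · exfalso
                have := h.1
                have h2 := norm_nonneg (x.1 - (y n).1)
                linarith
          constructor
          · exact le_of_tendsto_of_tendsto (hz.sub_const x.1).norm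
              ((hz.norm.sub_const ‖x.1‖).const_mul 2) (hev.mono fun n hn => hn.1)
          · have h1 : Tendsto (fun n => |f (y n).1 - f x.1|) atTop (𝓝 |f z - f x.1|) :=
              (((hfc.tendsto z).comp hz).sub_const (f x.1)).abs
            exact le_of_tendsto_of_tendsto h1
              ((hz.norm.sub_const ‖x.1‖).const_mul ε) (hev.mono fun n hn => hn.2)
        · have hxz : x.1 = z := by
            have h1 : Tendsto (fun n => ‖(y n).1 - x.1‖) atTop (𝓝 0) := by
              have h2 : Tendsto (fun n => 2 * |‖(y n).1‖ - ‖x.1‖|) atTop (𝓝 (2 * |S - ‖x.1‖|)) :=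
                ((hnorm.sub_const ‖x.1‖).abs).const_mul 2
              rw [heq, sub_self, abs_zero, mul_zero] at h2
              exact squeeze_zero (fun n => norm_nonneg _)
                (fun n => by rw [← heq]; exact hcomp x hx (y n) (hyc n)) h2
            have h3 := tendsto_iff_norm_sub_tendsto_zero.mpr h1
            exact tendsto_nhds_unique h3 hz
          rw [hxz]; exact hRrefl z
      obtain ⟨x₁, hx₁⟩ := hcne
      refine ⟨⟨z, hzY, hRtrans _ _ _ x₁.2.2 (hub x₁ hx₁)⟩, fun x hx => hub x hx⟩)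
    (by intro a b c' hab hbc; exact hRtrans _ _ _ hab hbc)
  -- the maximal element reaches the sphere
  have hmr : ‖m.1‖ = r := by
    by_contra hne
    have hlt : ‖m.1‖ < r := lt_of_le_of_ne m.2.1.1 hne
    have hdiff := (hf m.1).hasFDerivAt
    have hsmall := hdiff.isLittleO.def (c := ε / 4) (by positivity)
    rw [Metric.eventually_nhds_iff] at hsmall
    obtain ⟨δ, hδ, hδ2⟩ := hsmall
    set l : ℝ := min (δ / 2) (r - ‖m.1‖) with hl
    have hl0 : 0 < l := lt_min (by positivity) (by linarith)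
    obtain ⟨h, hh0, hh1, hh2, hh3⟩ := exists_spike (fderiv ℝ f m.1) m.1 t₀ (η := ε / 4) (by positivity) hl0
    have hlr : l ≤ r - ‖m.1‖ := min_le_right _ _
    have hlδ : l ≤ δ / 2 := min_le_left _ _
    have hnew : m.1 + h ∈ Y := by
      constructor
      · refine (norm_add_le _ _).trans ?_
        linarith
      · rw [ContinuousMap.add_apply, hh0, add_zero]; exact m.2.1.2
    have hRnew : R m.1 (m.1 + h) := by
      constructor
      · rw [add_sub_cancel_left]; linarith
      · have h1 := hδ2 (y := m.1 + h) (by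
          rw [dist_eq_norm, add_sub_cancel_left]; linarith)
        rw [add_sub_cancel_left, Real.norm_eq_abs] at h1
        have h2 : f (m.1 + h) - f m.1 = (f (m.1 + h) - f m.1 - (fderiv ℝ f m.1) h) + (fderiv ℝ f m.1) h := by ring
        rw [h2]
        refine (abs_add_le _ _).trans ?_
        nlinarith
    have hRnew' : R x₀ (m.1 + h) := hRtrans _ _ _ m.2.2 hRnew
    have := hm ⟨m.1 + h, hnew, hRnew'⟩ hRnew
    have h4 := this.1
    simp only at h4
    have h5 := norm_nonneg (m.1 - (m.1 + h))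
    linarith
  exact ⟨m.1, hmr, m.2.1.2, m.2.2.2⟩

/-- Rigidity: an everywhere differentiable self-map of `C[0,1]` fixing the points of the sphere of
radius `r` fixes all points of the closed ball. -/
lemma rigid {r : ℝ} (H : X → X) (hH : Differentiable ℝ H) (hfix : ∀ x : X, ‖x‖ = r → H x = x)
    (x₀ : X) (hx₀ : ‖x₀‖ ≤ r) : H x₀ = x₀ := by
  ext t₀
  -- the functional
  set f : X → ℝ := fun x => ContinuousMap.evalCLM ℝ t₀ (H x) with hf
  have hfd : Differentiable ℝ f := (ContinuousMap.evalCLM ℝ t₀ (M := ℝ)).differentiable.comp hH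
  have hr : 0 ≤ r := (norm_nonneg _).trans hx₀
  have key : ∀ ε : ℝ, 0 < ε → |x₀ t₀ - (H x₀) t₀| ≤ ε := by
    intro ε hε
    obtain ⟨x, hx1, hx2, hx3⟩ := reach f hfd t₀ (ε := ε / (r + 1)) (by positivity) x₀ hx₀
    have h1 : f x = x₀ t₀ := by
      simp only [hf]
      rw [hfix x hx1]
      exact hx2
    have h2 : f x₀ = (H x₀) t₀ := rfl
    rw [h1, h2, hx1] at hx3
    refine hx3.trans ?_
    rw [div_mul_eq_mul_div, div_le_iff₀ (by positivity)]
    nlinarith [norm_nonneg x₀]
  have h3 : |x₀ t₀ - (H x₀) t₀| ≤ 0 := le_of_forall_pos_le_add (fun ε hε => by simpa using key ε hε)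
  have h4 := abs_eq_zero.mp (le_antisymm h3 (abs_nonneg _))
  linarith

/-- For every `r > 0` and every `q ∈ {1, 2, …} ∪ {∞}`, the sphere of radius `r` of `C[0,1]` does not
admit `C^q` blid maps. -/
theorem result : ∀ r : ℝ, 0 < r → ∀ q : ℕ∞, 1 ≤ q → ¬ AdmitsBlidMaps q (Metric.sphere (0 : X) r) := by
  intro r hr q hq hadm
  obtain ⟨H, hH, hU, V, hV, -, hHV⟩ := hadm {x : X | x ≠ 0} (by
    rw [mem_nhdsSet_iff_forall]
    intro x hx
    apply IsOpen.mem_nhds isOpen_ne
    intro h0
    rw [h0, mem_sphere_iff_norm, sub_zero, norm_zero] at hx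
    exact hr.ne hx)
  have hd : Differentiable ℝ H := hH.differentiable (by
    intro h0
    simp at h0
    rw [h0] at hq
    exact absurd hq (by norm_num))
  have hfix : ∀ x : X, ‖x‖ = r → H x = x := by
    intro x hx
    apply hHV
    exact subset_of_mem_nhdsSet hV (by rw [mem_sphere_iff_norm, sub_zero]; exact hx)
  have h0 := rigid H hd hfix 0 (by rw [norm_zero]; exact hr.le)
  exact hU 0 h0

end Pool.Agent.H36.Old.NoBlidOld
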